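import Pool.Agent.H97.ZW.CountW

/-!
# Algebraic levels of `ξ` in small discs: a bounded number of exceptions

Let `ξ(s) = s (s - 1) π^(-s/2) Γ(s/2) ζ(s) / 2`. The positive ordinates of the zeros of zeta are the positive imaginary
parts of the solutions of `ξ(s) = 0`. It is known that, for all `a` outside a countable set, the positive ordinates of
the solutions of `ξ(s) = a`, `a` real, are algebraically independent over `ℚ`; the exceptional set may contain all
algebraic numbers. We prove that relations are very rare also for the algebraic, in particular for the rational, levels: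
for all `d`, `A`, `R` and every `ρ > 0`, of the rational levels of height at most `T` in a disc of radius `T^(-ρ)` at most
`C` are such that the ordinates in `|s| ≤ R` satisfy a relation of degree at most `d` with integer coefficients up to
`T^A`, even approximately up to `T^(-B)`; here `C` and `B` do not depend on `T`. The same holds for the levels of bounded
degree (`C` exceptions for each field generated by one of the levels), for the solutions themselves, and for tuples of
levels. For instance, the levels `1/n`, `M ≤ n ≤ 2M`, are in one such disc.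

Proof: the branches of the inverse function of `ξ` are algebraically independent functions (library), hence so are their
imaginary parts on the real line; near a level without critical points in `|s| ≤ R` finitely many branches give all
solutions, and the determinant method (library, local form) bounds the number of algebraic arguments in a small disc at
which independent analytic functions satisfy a relation with coefficients in the field of the argument.
-/

set_option autoImplicit false

open Filter Topology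

namespace Pool.Agent.Results.MP_ec260d_nt.LevelsInSmallDiscs

/-- The Riemann xi function: `ξ(s) = (s (s - 1) Λ₀(s) + 1) / 2 = s (s - 1) π^(-s/2) Γ(s/2) ζ(s) / 2`. -/
noncomputable def xi (s : ℂ) : ℂ := (s * (s - 1) * completedRiemannZeta₀ s + 1) / 2

/-- The positive imaginary parts of the solutions of `ξ(s) = a` with `|s| ≤ R`. -/
def Ordinates (R : ℝ) (a : ℂ) : Set ℝ :=
  {γ | 0 < γ ∧ ∃ β : ℝ, ‖(β : ℂ) + (γ : ℂ) * Complex.I‖ ≤ R ∧ xi ((β : ℂ) + (γ : ℂ) * Complex.I) = a}

/-- The algebraic numbers which are zeros of nonzero polynomials of degree at most `m` with integral coefficients of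
absolute value at most `T`. -/
def Numbers (m : ℕ) (T : ℝ) : Set ℂ :=
  {x | ∃ P : Polynomial ℤ, P ≠ 0 ∧ P.natDegree ≤ m ∧ (∀ i, |(P.coeff i : ℝ)| ≤ T) ∧ Polynomial.aeval x P = 0}

/-- The algebraic integers of the field generated by `S` all of whose conjugates have absolute value at most `H`. -/
def Integers (S : Set ℂ) (H : ℝ) : Set ℂ :=
  {c | c ∈ IntermediateField.adjoin ℚ S ∧ IsIntegral ℤ c ∧ ∀ z ∈ (minpoly ℚ c).aroots ℂ, ‖z‖ ≤ H}

/-- The number of the different fields `ℚ(x)`, `x ∈ X`. -/
noncomputable def fields (X : Finset ℂ) : ℕ :=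
  Set.ncard {G : IntermediateField ℚ ℂ | ∃ x ∈ X, G = IntermediateField.adjoin ℚ {x}}

/-- There is a polynomial `P` in `n` variables, of degree at most `d` in each variable, with coefficients `∑ ω_i c_i`, where
the `c_i` are integers of the field `ℚ(a_1, …, a_N)` with all conjugates at most `T ^ A`, such that `|P(s)|` is at most
`T ^ (-B)` times the absolute value of a nonzero coefficient of `P`; for instance `P(s) = 0` and `P ≠ 0`. -/
def Related {n N g : ℕ} (ω : Fin g → ℂ) (d : ℕ) (A B T : ℝ) (a : Fin N → ℂ) (s : Fin n → ℂ) : Prop :=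
  ∃ P : MvPolynomial (Fin n) ℂ, (∀ k, P.degreeOf k ≤ d) ∧
    (∀ e, ∃ c : Fin g → ℂ, (∀ i, c i ∈ Integers (Set.range a) (T ^ A)) ∧ P.coeff e = ∑ i, ω i * c i) ∧
    ∃ e, P.coeff e ≠ 0 ∧ ‖MvPolynomial.eval s P‖ ≤ T ^ (-B) * ‖P.coeff e‖

/-- The tuples of levels `a_1, …, a_N` with a relation between solutions `s_k` of `ξ(s) = a_j`, `|s| ≤ R`, `j = lev k`,
such that `s_k ≠ s_l` and `s_k + s_l ≠ 1` for different `k`, `l` with the same level. -/
def SolutionsRelated {N g : ℕ} (R : ℝ) (ω : Fin g → ℂ) (d : ℕ) (A B T : ℝ) : Set (Fin N → ℂ) :=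
  {a | ∃ (n : ℕ) (lev : Fin n → Fin N) (s : Fin n → ℂ), (∀ k, ‖s k‖ ≤ R ∧ xi (s k) = a (lev k)) ∧
    (∀ k l, k ≠ l → lev k = lev l → s k ≠ s l ∧ s k + s l ≠ 1) ∧ Related ω d A B T a s}

/-- The tuples of real levels `a_1, …, a_N` with a relation between elements `γ_k` of `Ordinates R a_j`, `j = lev k`, which
are distinct for each level. -/
def OrdinatesRelated {N g : ℕ} (R : ℝ) (ω : Fin g → ℂ) (d : ℕ) (A B T : ℝ) : Set (Fin N → ℂ) :=
  {a | (∀ j, (a j).im = 0) ∧ ∃ (n : ℕ) (lev : Fin n → Fin N) (γ : Fin n → ℝ),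
    (∀ k, γ k ∈ Ordinates R (a (lev k))) ∧ (∀ k l, k ≠ l → lev k = lev l → γ k ≠ γ l) ∧
    Related ω d A B T a (fun k => (γ k : ℂ))}

theorem xi_zero_iff (s : ℂ) (hs : 0 < s.im) : xi s = 0 ↔ riemannZeta s = 0 := by
  have h0 : s ≠ 0 := by rintro rfl; simp at hs
  have h1 : s ≠ 1 := by rintro rfl; simp at hs
  have h1' : (1 : ℂ) - s ≠ 0 := sub_ne_zero.mpr h1.symm
  have h2 : xi s = s * (s - 1) * completedRiemannZeta s / 2 := by
    rw [xi, completedRiemannZeta_eq]
    field_simp
    ring
  have h3 : Complex.Gammaℝ s ≠ 0 := by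
    intro h
    rw [Complex.Gammaℝ_eq_zero_iff] at h
    obtain ⟨n, hn⟩ := h
    rw [hn] at hs
    simp at hs
  have h4 := riemannZeta_def_of_ne_zero h0
  have h5 : s * (s - 1) ≠ 0 := mul_ne_zero h0 (sub_ne_zero.mpr h1)
  rw [h2, h4, div_eq_zero_iff, div_eq_zero_iff, mul_eq_zero]
  constructor
  · rintro ((h | h) | h)
    · exact absurd h h5
    · exact Or.inl h
    · norm_num at h
  · rintro (h | h)
    · exact Or.inl (Or.inr h)
    · exact absurd h h3

/-- The ordinates at the level `0` are the positive ordinates of the zeros of zeta. -/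
theorem ordinates_zero : ⋃ R, Ordinates R 0 =
    {γ : ℝ | 0 < γ ∧ ∃ β : ℝ, riemannZeta ((β : ℂ) + (γ : ℂ) * Complex.I) = 0} := by
  ext γ
  rw [Set.mem_iUnion]
  constructor
  · rintro ⟨R, h1, β, -, h2⟩
    exact ⟨h1, β, (xi_zero_iff _ (by simpa using h1)).mp h2⟩
  · rintro ⟨h1, β, h2⟩
    exact ⟨_, h1, β, le_rfl, (xi_zero_iff _ (by simpa using h1)).mpr h2⟩

/-- Let `K` be a compact set which contains no value of `ξ` at a critical point in the disc `|s| ≤ R`. For all `N`, `m`,
`d`, `g`, `A` and `ρ > 0` there are `B`, `C` and `T₀` such that for all complex `ω_1, …, ω_g`, all `T ≥ T₀` and all finite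
sets `X_1, …, X_N` of algebraic numbers of degree at most `m` and height at most `T` in `K`, the mutual distances of the
elements of each `X_j` being at most `T ^ (-ρ)`: there are at most `C ∑_j fields(X_j) ∏_(i ≠ j) |X_i|` tuples in
`X_1 × ⋯ × X_N` with a relation between solutions or between ordinates. In particular (`N = 1`) all but at most
`C fields(X)` of the elements `a` of `X` are such that there is no relation between the solutions, and between the positive
ordinates of the solutions if `a` is real, of `ξ(s) = a`, `|s| ≤ R`; if `X` consists of rational numbers then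
`fields(X) ≤ 1`. -/
theorem result (R : ℝ) (K : Set ℂ) (hK : IsCompact K) (hreg : ∀ s : ℂ, ‖s‖ ≤ R → xi s ∈ K → deriv xi s ≠ 0)
    (N m d g : ℕ) (A ρ : ℝ) (hρ : 0 < ρ) :
    ∃ B C T₀ : ℝ, ∀ (ω : Fin g → ℂ) (T : ℝ), T₀ ≤ T → ∀ X : Fin N → Finset ℂ,
      (∀ j, ∀ x ∈ X j, x ∈ K ∧ x ∈ Numbers m T) → (∀ j, ∀ x ∈ X j, ∀ y ∈ X j, ‖x - y‖ ≤ T ^ (-ρ)) →
      {a | (∀ j, a j ∈ X j) ∧ a ∈ SolutionsRelated R ω d A B T ∪ OrdinatesRelated R ω d A B T}.Finite ∧
      ({a | (∀ j, a j ∈ X j) ∧ a ∈ SolutionsRelated R ω d A B T ∪ OrdinatesRelated R ω d A B T}.ncard : ℝ) ≤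
        C * ∑ j, (fields (X j) : ℝ) * ∏ i ∈ Finset.univ.erase j, ((X i).card : ℝ) := by
  exact Pool.Agent.H97.ZW.countW_levels Pool.Agent.Y907.AP.t_SYM.2.2.1 Pool.Agent.Y907.AP.t_SYM.1
    Pool.Agent.Y907.AP.t_SYM.2.1 Pool.Agent.H97.AL.gen_xi R hK
    (fun a ha s hs hsa => hreg s hs (by change Pool.Agent.Y922.AP.xi s ∈ K; rw [hsa]; exact ha)) N m d g A ρ hρ

end Pool.Agent.Results.MP_ec260d_nt.LevelsInSmallDiscs
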