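import Pool.Agent.H97.AL.Main

/-!
# All algebraic levels near a level outside a set of Hausdorff dimension zero

Let `ξ(s) = s (s - 1) π^(-s/2) Γ(s/2) ζ(s) / 2`. The positive ordinates of the zeros of zeta are the positive imaginary
parts of the solutions of `ξ(s) = 0`. We prove: for every `x` outside a set of Hausdorff dimension `0`, the positive
ordinates of the solutions of `ξ(s) = a` in `|s| ≤ R` do not satisfy relations of degree at most `d` with integer
coefficients up to `T^A` for ALL numbers `a` of a number field of height at most `T`, `T` large, which are close to `x`,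
`|x - a| ≤ T^(-τ)`; here `τ > 0` is arbitrary, so that for instance all but finitely many convergents `a` of a real `x`
are such levels. The same holds for the solutions themselves and for tuples of levels, with dimension
`(m + 1) (N - 1) / τ` for `N`-tuples and numbers of degree at most `m`.
-/

set_option autoImplicit false

open Filter Topology

namespace Pool.Agent.Results.MP_ec260d_nt.NearAlmostEveryLevel

/-- The Riemann xi function: `ξ(s) = (s (s - 1) Λ₀(s) + 1) / 2 = s (s - 1) π^(-s/2) Γ(s/2) ζ(s) / 2`. -/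
noncomputable def xi (s : ℂ) : ℂ := (s * (s - 1) * completedRiemannZeta₀ s + 1) / 2

/-- The positive imaginary parts of the solutions of `ξ(s) = a` with `|s| ≤ R`. -/
def Ordinates (R : ℝ) (a : ℂ) : Set ℝ :=
  {γ | 0 < γ ∧ ∃ β : ℝ, ‖(β : ℂ) + (γ : ℂ) * Complex.I‖ ≤ R ∧ xi ((β : ℂ) + (γ : ℂ) * Complex.I) = a}

/-- The algebraic numbers which are zeros of nonzero polynomials of degree at most `m` with integral coefficients of
absolute value at most `T`. -/
def Numbers (m : ℕ) (T : ℝ) : Set ℂ :=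
  {x | ∃ P : Polynomial ℤ, P ≠ 0 ∧ P.natDegree ≤ m ∧ (∀ i, |(P.coeff i : ℝ)| ≤ T) ∧ Polynomial.aeval x P = 0}

/-- The algebraic integers of the field generated by `S` all of whose conjugates have absolute value at most `H`. -/
def Integers (S : Set ℂ) (H : ℝ) : Set ℂ :=
  {c | c ∈ IntermediateField.adjoin ℚ S ∧ IsIntegral ℤ c ∧ ∀ z ∈ (minpoly ℚ c).aroots ℂ, ‖z‖ ≤ H}

/-- There is a polynomial `P` in `n` variables, of degree at most `d` in each variable, with coefficients `∑ ω_i c_i`, where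
the `c_i` are integers of the field `ℚ(a_1, …, a_N)` with all conjugates at most `T ^ A`, such that `|P(s)|` is at most
`T ^ (-B)` times the absolute value of a nonzero coefficient of `P`; for instance `P(s) = 0` and `P ≠ 0`. -/
def Related {n N g : ℕ} (ω : Fin g → ℂ) (d : ℕ) (A B T : ℝ) (a : Fin N → ℂ) (s : Fin n → ℂ) : Prop :=
  ∃ P : MvPolynomial (Fin n) ℂ, (∀ k, P.degreeOf k ≤ d) ∧
    (∀ e, ∃ c : Fin g → ℂ, (∀ i, c i ∈ Integers (Set.range a) (T ^ A)) ∧ P.coeff e = ∑ i, ω i * c i) ∧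
    ∃ e, P.coeff e ≠ 0 ∧ ‖MvPolynomial.eval s P‖ ≤ T ^ (-B) * ‖P.coeff e‖

/-- The tuples of levels `a_1, …, a_N` with a relation between solutions `s_k` of `ξ(s) = a_j`, `|s| ≤ R`, `j = lev k`,
such that `s_k ≠ s_l` and `s_k + s_l ≠ 1` for different `k`, `l` with the same level. -/
def SolutionsRelated {N g : ℕ} (R : ℝ) (ω : Fin g → ℂ) (d : ℕ) (A B T : ℝ) : Set (Fin N → ℂ) :=
  {a | ∃ (n : ℕ) (lev : Fin n → Fin N) (s : Fin n → ℂ), (∀ k, ‖s k‖ ≤ R ∧ xi (s k) = a (lev k)) ∧
    (∀ k l, k ≠ l → lev k = lev l → s k ≠ s l ∧ s k + s l ≠ 1) ∧ Related ω d A B T a s}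

/-- The tuples of real levels `a_1, …, a_N` with a relation between elements `γ_k` of `Ordinates R a_j`, `j = lev k`, which
are distinct for each level. -/
def OrdinatesRelated {N g : ℕ} (R : ℝ) (ω : Fin g → ℂ) (d : ℕ) (A B T : ℝ) : Set (Fin N → ℂ) :=
  {a | (∀ j, (a j).im = 0) ∧ ∃ (n : ℕ) (lev : Fin n → Fin N) (γ : Fin n → ℝ),
    (∀ k, γ k ∈ Ordinates R (a (lev k))) ∧ (∀ k l, k ≠ l → lev k = lev l → γ k ≠ γ l) ∧
    Related ω d A B T a (fun k => (γ k : ℂ))}

/-- Let `N ≥ 1`, `m` a natural number, `τ > 0` and `ω_1, …, ω_g` complex numbers. There is a set `Z` in `ℂ^N` of Hausdorff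
dimension at most `(m + 1) (N - 1) / τ`, that is of dimension `0` for `N = 1`, such that for all `x ∉ Z` whose coordinates
are not critical values of `ξ`, all number fields `F_j`, all `R`, `d`, `A`, some `B` and all large `T`: ALL tuples
`a_1, …, a_N` of numbers of the fields `F_j` of degree at most `m` and height at most `T` with `|x_j - a_j| ≤ T ^ (-τ)` are
such that there is no relation between the solutions of `ξ(s) = a_j`, `|s| ≤ R`, and, if the `a_j` are real, no relation
between the positive ordinates of these solutions. -/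
theorem result (N m g : ℕ) (hN : 1 ≤ N) (ω : Fin g → ℂ) (τ : ℝ) (hτ : 0 < τ) :
    ∃ Z : Set (Fin N → ℂ), dimH Z ≤ ENNReal.ofReal (((m : ℝ) + 1) * ((N : ℝ) - 1) / τ) ∧
      ∀ x : Fin N → ℂ, x ∉ Z → (∀ j, ∀ s : ℂ, xi s = x j → deriv xi s ≠ 0) →
        ∀ F : Fin N → IntermediateField ℚ ℂ, (∀ j, FiniteDimensional ℚ (F j)) → ∀ (R : ℝ) (d : ℕ) (A : ℝ), ∃ B : ℝ,
          ∀ᶠ T : ℝ in atTop, ∀ a : Fin N → ℂ, (∀ j, a j ∈ F j ∧ a j ∈ Numbers m T ∧ ‖x j - a j‖ ≤ T ^ (-τ)) →
            a ∉ SolutionsRelated R ω d A B T ∪ OrdinatesRelated R ω d A B T := by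
  obtain ⟨Z, hZ, h⟩ := Pool.Agent.H97.AL.near_levels Pool.Agent.Y907.AP.t_SYM.2.2.1 Pool.Agent.Y907.AP.t_SYM.1
    Pool.Agent.Y907.AP.t_SYM.2.1 Pool.Agent.H97.AL.gen_xi hN ω m τ hτ
  exact ⟨Z, hZ, fun x hxZ hx F hF R d A => h x hx hxZ F hF R d A⟩

end Pool.Agent.Results.MP_ec260d_nt.NearAlmostEveryLevel
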