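import Pool.Agent.H49.KZ.BaseP

/-!
# Beurling primes with RH, Lindelöf, the Poisson law and all Hardy-Littlewood laws whose zeros have ordinates in a prescribed dense set

A system of generalised primes (Beurling primes) is a sequence `1 < q 0 < q 1 < ...` of real numbers; its generalised
integers are the products `gint q n = ∏ q (k - 1)` over the prime factors of `n` (with multiplicity, the factor being the
`k`-th prime number), one for every `n ≥ 1`, counted with multiplicity; for `q = 2, 3, 5, ...` one has `gint q n = n` and the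
zeta function is the Riemann zeta function.

`RHSystem q Z` (`Pool/Agent/H49/BZ/Final.lean`) collects what the Riemann hypothesis and the Lindelöf hypothesis would give for
the primes; `RegularZeros Z` (`Pool/Agent/H49/BZ/Ord.lean`) says that the zeros in `Re s > 1 / 3` are simple, lie on the critical
line and follow the Riemann-von Mangoldt formula. `Constellations q c`, `HasZeros Z γ`, `ExplicitFormula q γ`
(`Pool/Agent/H49/KZ/Sys0.lean`): for ALL finite patterns `D` the number of the primes `p ≤ x` with `p + d` prime for all `d ∈ D` is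
`c D ∫_2^x du / (log u) ^ |D| + O(x ^ (1 / 2 + ε))`, for instance with the constants of Hardy and Littlewood; the zeros in
`Re s > 1 / 3` are `1 / 2 ± i γ_k`, with multiplicity; the number of the primes up to `x` is given by the zeros, through an explicit
formula with cut-offs, with the error `O(x ^ ε)`. `PoissonLaw q` (`Pool/Agent/H49/KZ/SysP.lean`): for every `l > 0` and every `k` the
proportion of the `x ≤ X` with exactly `k` primes in `(x, x + l log x]` tends to `e ^ (-l) l ^ k / k!`.

The theorem: all this is compatible with every behaviour of the ordinates with respect to algebraic relations: the ordinates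
can all lie in any given dense set, for example be rational numbers, and they can be algebraically independent.
-/

set_option autoImplicit false

open Filter Topology

namespace Pool.Agent.Results.MP_ec260d_nt.OrdinatesGivenConstellations

open Pool.Agent.H49.BZ

theorem dense_sys {c : Finset ℕ → ℝ} (hc : ∀ D, 0 ≤ c D)
    (hc0 : ∀ D D' : Finset ℕ, 0 ∈ D → 2 ≤ D.card → 0 ∈ D' → (∃ t, ∀ d ∈ D, t + d ∈ D') → c D = 0 → c D' = 0)
    {A : Set ℝ} (hA : Dense A) : ∃ (γ : ℕ → ℝ) (q : ℕ → ℝ) (Z : ℂ → ℂ), RHSystem q Z ∧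
      HasZeros Z γ ∧ ExplicitFormula q γ ∧ Constellations q c ∧ PoissonLaw q ∧ RegularZeros Z ∧ ordinates Z ⊆ A := by
  have hex : ∀ n, ∃ t ∈ A, gi n < t ∧ t < gi (n + 1) := fun n => by
    obtain ⟨t, ht1, ht2⟩ := hA.exists_between (gi_mono (Nat.lt_succ_self n))
    exact ⟨t, ht1, ht2⟩
  choose γ hγA hγ using hex
  have hB : Between γ := hγ
  obtain ⟨q, Z, hS, hord, hexp, hcon, hpoi⟩ := sysP (near_pos hB.near) hB.strictMono.monotone (near_windows hB.near) hc hc0
  obtain ⟨hR, ho⟩ := between_of hB hS hord
  refine ⟨γ, q, Z, hS, hord, hexp, hcon, hpoi, hR, ?_⟩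
  rw [ho]
  rintro _ ⟨k, rfl⟩
  exact hγA k

/-- Let `c D ≥ 0` be constants for the patterns `D`, with `c D' = 0` if `D'` contains a translate of a `D` with `c D = 0`; for
instance the constants of Hardy and Littlewood. (1) For every dense set `A` of real numbers there are generalised primes with the
analogues of the Riemann hypothesis, of the Lindelöf hypothesis and of the Riemann-von Mangoldt formula, with simple zeros, with
the explicit formula, with the Poisson law and with the laws `c D ∫_2^x du / (log u) ^ |D| + O(x ^ (1 / 2 + ε))` of all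
constellations, all whose positive ordinates are in `A`. (2) They can all be rational. (3) They can be algebraically independent over the rational numbers. -/
theorem result :
    ∀ c : Finset ℕ → ℝ, (∀ D, 0 ≤ c D) →
      (∀ D D' : Finset ℕ, 0 ∈ D → 2 ≤ D.card → 0 ∈ D' → (∃ t, ∀ d ∈ D, t + d ∈ D') → c D = 0 → c D' = 0) →
      (∀ A : Set ℝ, Dense A → ∃ (γ : ℕ → ℝ) (q : ℕ → ℝ) (Z : ℂ → ℂ), RHSystem q Z ∧
        HasZeros Z γ ∧ ExplicitFormula q γ ∧ Constellations q c ∧ PoissonLaw q ∧ RegularZeros Z ∧ ordinates Z ⊆ A) ∧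
      (∃ (γ : ℕ → ℝ) (q : ℕ → ℝ) (Z : ℂ → ℂ), RHSystem q Z ∧
        HasZeros Z γ ∧ ExplicitFormula q γ ∧ Constellations q c ∧ PoissonLaw q ∧ RegularZeros Z ∧ ∀ t ∈ ordinates Z, ∃ r : ℚ, t = r) ∧
      ∃ (γ : ℕ → ℝ) (q : ℕ → ℝ) (Z : ℂ → ℂ), RHSystem q Z ∧
        HasZeros Z γ ∧ ExplicitFormula q γ ∧ Constellations q c ∧ PoissonLaw q ∧ RegularZeros Z ∧
        AlgebraicIndependent ℚ (fun t : ordinates Z => (t : ℝ)) := by
  intro c hc hc0
  refine ⟨fun A hA => dense_sys hc hc0 hA, ?_, ?_⟩
  · obtain ⟨γ, q, Z, h1, h2, h3, h4, h4', h5, h6⟩ := dense_sys hc hc0 (A := Set.range ((↑) : ℚ → ℝ)) Rat.denseRange_cast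
    refine ⟨γ, q, Z, h1, h2, h3, h4, h4', h5, fun t ht => ?_⟩
    obtain ⟨r, hr⟩ := h6 ht
    exact ⟨r, hr.symm⟩
  · obtain ⟨γ, hB, hi⟩ := exists_indep_between
    obtain ⟨q, Z, hS, hord, hexp, hcon, hpoi⟩ := sysP (near_pos hB.near) hB.strictMono.monotone (near_windows hB.near) hc hc0
    obtain ⟨hR, ho⟩ := between_of hB hS hord
    refine ⟨γ, q, Z, hS, hord, hexp, hcon, hpoi, hR, ?_⟩
    rw [ho]
    exact hi.to_subtype_range

end Pool.Agent.Results.MP_ec260d_nt.OrdinatesGivenConstellations
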