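import Pool.Agent.H97.ZW.ZetaLoc

/-!
# Algebraic values of zeta in small discs: a bounded number of exceptions

The set `Γ` of the question consists of the positive ordinates of the solutions of `ζ(s) = a` for `a = 0`. It is known
that for all complex `a` outside a countable set, which may contain all algebraic numbers, all solutions of `ζ(s) = a` are
algebraically independent over `ℚ`. We prove that relations are very rare also for algebraic, in particular for rational,
values `a`: let `D` be a compact set of complex numbers `≠ 1`. For all `d`, `A` and every `ρ > 0`, of the rational numbers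
`a` of height at most `T` in a disc of radius `T^(-ρ)` at most `C` are such that the solutions of `ζ(s) = a` in `D`, or the
positive ordinates of these solutions, satisfy a relation of degree at most `d` with integer coefficients up to `T^A`,
even approximately up to `T^(-B)`; here `C` and `B` do not depend on `T`, and the zeros of the derivative of zeta in `D` are
excluded. If `a` is real and `D` is invariant under conjugation, then with a solution also its conjugate is a solution, so
that this includes the real and imaginary parts of the solutions. For instance, the values `1/n`, `M ≤ n ≤ 2M`, are in one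
such disc; the solutions of `ζ(s) = 1/n` tend to zeros of zeta.

Proof: the branches of the inverse function of zeta are algebraically independent functions (library); near a value which
is not taken at a zero of the derivative in `D` finitely many branches give all solutions, and the determinant method
(library, local form) bounds the number of algebraic arguments in a small disc at which independent analytic functions
satisfy a relation with coefficients in the field of the argument.
-/

set_option autoImplicit false

open Filter Topology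

namespace Pool.Agent.Results.MP_ec260d_nt.ZetaValuesInSmallDiscs

/-- The positive imaginary parts of the solutions of `ζ(s) = a` in `D`. -/
def Ordinates (D : Set ℂ) (a : ℂ) : Set ℝ :=
  {γ | 0 < γ ∧ ∃ β : ℝ, (β : ℂ) + (γ : ℂ) * Complex.I ∈ D ∧ riemannZeta ((β : ℂ) + (γ : ℂ) * Complex.I) = a}

/-- The algebraic numbers which are zeros of nonzero polynomials of degree at most `m` with integral coefficients of
absolute value at most `T`. -/
def Numbers (m : ℕ) (T : ℝ) : Set ℂ :=
  {x | ∃ P : Polynomial ℤ, P ≠ 0 ∧ P.natDegree ≤ m ∧ (∀ i, |(P.coeff i : ℝ)| ≤ T) ∧ Polynomial.aeval x P = 0}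

/-- The algebraic integers of the field generated by `S` all of whose conjugates have absolute value at most `H`. -/
def Integers (S : Set ℂ) (H : ℝ) : Set ℂ :=
  {c | c ∈ IntermediateField.adjoin ℚ S ∧ IsIntegral ℤ c ∧ ∀ z ∈ (minpoly ℚ c).aroots ℂ, ‖z‖ ≤ H}

/-- The number of the different fields `ℚ(x)`, `x ∈ X`. -/
noncomputable def fields (X : Finset ℂ) : ℕ :=
  Set.ncard {G : IntermediateField ℚ ℂ | ∃ x ∈ X, G = IntermediateField.adjoin ℚ {x}}

/-- There is a polynomial `P` in `n` variables, of degree at most `d` in each variable, with coefficients `∑ ω_i c_i`, where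
the `c_i` are integers of the field `ℚ(a_1, …, a_N)` with all conjugates at most `T ^ A`, such that `|P(s)|` is at most
`T ^ (-B)` times the absolute value of a nonzero coefficient of `P`; for instance `P(s) = 0` and `P ≠ 0`. -/
def Related {n N g : ℕ} (ω : Fin g → ℂ) (d : ℕ) (A B T : ℝ) (a : Fin N → ℂ) (s : Fin n → ℂ) : Prop :=
  ∃ P : MvPolynomial (Fin n) ℂ, (∀ k, P.degreeOf k ≤ d) ∧
    (∀ e, ∃ c : Fin g → ℂ, (∀ i, c i ∈ Integers (Set.range a) (T ^ A)) ∧ P.coeff e = ∑ i, ω i * c i) ∧
    ∃ e, P.coeff e ≠ 0 ∧ ‖MvPolynomial.eval s P‖ ≤ T ^ (-B) * ‖P.coeff e‖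

/-- The tuples of values `a_1, …, a_N` with a relation between solutions `s_k` of `ζ(s) = a_j` in `D`, `j = lev k`, which
are distinct for each value. -/
def SolutionsRelated {N g : ℕ} (D : Set ℂ) (ω : Fin g → ℂ) (d : ℕ) (A B T : ℝ) : Set (Fin N → ℂ) :=
  {a | ∃ (n : ℕ) (lev : Fin n → Fin N) (s : Fin n → ℂ), (∀ k, s k ∈ D ∧ riemannZeta (s k) = a (lev k)) ∧
    (∀ k l, k ≠ l → lev k = lev l → s k ≠ s l) ∧ Related ω d A B T a s}

/-- The tuples of real values `a_1, …, a_N` with a relation between elements `γ_k` of `Ordinates D a_j`, `j = lev k`, which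
are distinct for each value. -/
def OrdinatesRelated {N g : ℕ} (D : Set ℂ) (ω : Fin g → ℂ) (d : ℕ) (A B T : ℝ) : Set (Fin N → ℂ) :=
  {a | (∀ j, (a j).im = 0) ∧ ∃ (n : ℕ) (lev : Fin n → Fin N) (γ : Fin n → ℝ),
    (∀ k, γ k ∈ Ordinates D (a (lev k))) ∧ (∀ k l, k ≠ l → lev k = lev l → γ k ≠ γ l) ∧
    Related ω d A B T a (fun k => (γ k : ℂ))}

/-- Let `D` be a compact set which does not contain `1`, and `K` a compact set which contains no value of zeta at a zero of
its derivative in `D`. For all `N`, `m`, `d`, `g`, `A` and `ρ > 0` there are `B`, `C` and `T₀` such that for all complex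
`ω_1, …, ω_g`, all `T ≥ T₀` and all finite sets `X_1, …, X_N` of algebraic numbers of degree at most `m` and height at most
`T` in `K`, the mutual distances of the elements of each `X_j` being at most `T ^ (-ρ)`: there are at most
`C ∑_j fields(X_j) ∏_(i ≠ j) |X_i|` tuples in `X_1 × ⋯ × X_N` with a relation between solutions or between ordinates. In
particular (`N = 1`) all but at most `C fields(X)` of the elements `a` of `X` are such that there is no relation between
the solutions of `ζ(s) = a` in `D`, and between their positive ordinates if `a` is real; if `X` consists of rational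
numbers then `fields(X) ≤ 1`. -/
theorem result (D : Set ℂ) (hD : IsCompact D) (h1 : (1 : ℂ) ∉ D) (K : Set ℂ) (hK : IsCompact K)
    (hreg : ∀ s ∈ D, riemannZeta s ∈ K → deriv riemannZeta s ≠ 0) (N m d g : ℕ) (A ρ : ℝ) (hρ : 0 < ρ) :
    ∃ B C T₀ : ℝ, ∀ (ω : Fin g → ℂ) (T : ℝ), T₀ ≤ T → ∀ X : Fin N → Finset ℂ,
      (∀ j, ∀ x ∈ X j, x ∈ K ∧ x ∈ Numbers m T) → (∀ j, ∀ x ∈ X j, ∀ y ∈ X j, ‖x - y‖ ≤ T ^ (-ρ)) →
      {a | (∀ j, a j ∈ X j) ∧ a ∈ SolutionsRelated D ω d A B T ∪ OrdinatesRelated D ω d A B T}.Finite ∧
      ({a | (∀ j, a j ∈ X j) ∧ a ∈ SolutionsRelated D ω d A B T ∪ OrdinatesRelated D ω d A B T}.ncard : ℝ) ≤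
        C * ∑ j, (fields (X j) : ℝ) * ∏ i ∈ Finset.univ.erase j, ((X i).card : ℝ) := by
  exact Pool.Agent.H97.ZW.countW_zeta hD h1 hK hreg N m d g A ρ hρ

end Pool.Agent.Results.MP_ec260d_nt.ZetaValuesInSmallDiscs
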